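import Pool.Agent.Lib.MP_df705a_gt.Curv

/-!
# Ricci pinching on closed aspherical manifolds: definitions
-/

open scoped Manifold ContDiff Topology
open Set Bundle Module Filter MeasureTheory

noncomputable section

namespace Pool.Agent.Lib.MP_df705a_gt.Pin

section coordinates

variable {E : Type*} [NormedAddCommGroup E] [NormedSpace ℝ E] [FiniteDimensional ℝ E]

/-- The Ricci curvature `∑ h^{il} R_{ijkl}`. -/
def ric (h : Curv.Coeff E) (x : E) : Matrix (Fin (finrank ℝ E)) (Fin (finrank ℝ E)) ℝ :=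
  fun j k => ∑ i, ∑ l, (h x)⁻¹ i l * Curv.riemann h i j k l x

/-- `Ric ≥ -κ h` at the point `x`. -/
def RicGeAt (h : Curv.Coeff E) (κ : ℝ) (x : E) : Prop := (ric h x + κ • h x).PosSemidef

/-- `Ric ≤ κ h` at the point `x`. -/
def RicLeAt (h : Curv.Coeff E) (κ : ℝ) (x : E) : Prop := (κ • h x - ric h x).PosSemidef

/-- `γ : [0, 1] → E` is a piecewise differentiable curve with bounded derivative, from `x` to `y`. -/
structure IsPath (γ : ℝ → E) (x y : E) : Prop where
  zero : γ 0 = x
  one : γ 1 = y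
  cont : ContinuousOn γ (Icc 0 1)
  diff : ∃ s : Set ℝ, s.Finite ∧ ∀ t ∈ Ioo (0 : ℝ) 1 \ s, DifferentiableAt ℝ γ t
  bdd : ∃ C : ℝ, ∀ t ∈ Ioo (0 : ℝ) 1, ‖deriv γ t‖ ≤ C

/-- The length of the curve `γ : [0, 1] → E` for the metric `h`. -/
def len (h : Curv.Coeff E) (γ : ℝ → E) : ℝ :=
  ∫ t in (0 : ℝ)..1, √ (Curv.ip h (γ t) (deriv γ t) (deriv γ t))

/-- The Riemannian distance of the metric `h`: the infimum of the lengths of curves. -/
def dh (h : Curv.Coeff E) (x y : E) : ℝ := sInf {l : ℝ | ∃ γ : ℝ → E, IsPath γ x y ∧ l = len h γ}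

/-- The open ball of the Riemannian distance. -/
def ballh (h : Curv.Coeff E) (x : E) (r : ℝ) : Set E := {y | dh h x y < r}

/-- The metric `h` is complete: the closed balls are compact. -/
def Proper (h : Curv.Coeff E) : Prop := ∀ (x : E) (r : ℝ), IsCompact {y | dh h x y ≤ r}

/-- The Riemannian measure of the metric `h`. -/
def vol [MeasurableSpace E] [BorelSpace E] (h : Curv.Coeff E) : Measure E :=
  (finBasis ℝ E).addHaar.withDensity fun x => ENNReal.ofReal (√ (h x).det)

end coordinates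

end Pool.Agent.Lib.MP_df705a_gt.Pin
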