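import Pool.Agent.Lib.MP_df705a_gt.Mg.G070

/-!
# Ricci pinching, part A, AE2: the lemma of Gauss
-/

open scoped Manifold ContDiff Topology
open Set Bundle Module Filter MeasureTheory

noncomputable section

set_option linter.unusedSectionVars false

namespace Pool.Agent.Lib.MP_df705a_gt.Pin.A

variable {E : Type*} [NormedAddCommGroup E] [NormedSpace ℝ E] [FiniteDimensional ℝ E]
  {h : Curv.Coeff E}

variable {Ex : E → E → E}

/-- The lemma of Gauss.
Proof: put `γ t = Ex p (t v)`, `V t = vel Ex p v t`, `J t = fderiv (Ex p) (t v) (t u)` and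
`f t = bf h (γ t) (V t) (J t)`. Let `W t = fderiv (fderiv (Ex p)) (t v) (t u) v +
fderiv (Ex p) (t v) u`. By symmetry of the second derivative (`Ex p` is smooth,
`ContDiffAt.isSymmSndFDerivAt`) `W t` is the derivative of `J` at `t`, and it is also the derivative
at `ε = 0` of `ε ↦ vel Ex p (v + ε u) t = fderiv (Ex p) (t (v + ε u)) (v + ε u)`. Differentiate
`IsExp.energy` for `v + ε u` at `ε = 0` (`hasDerivWithinAt_bf` on `univ`; the derivative of
`ε ↦ Ex p (t (v + ε u))` is `J t`): with `D = fderiv (bf h) (γ t)`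
  `D (J t) (V t) (V t) + 2 bf h (γ t) (V t) (W t) = 2 bf h p v u`.
By `hasDerivWithinAt_bf`, `IsExp.geo` and `bf_acc` the derivative of `f` is
`D (V) V J + (2⁻¹ D (J) V V - D (V) V J) + bf V W = 2⁻¹ D (J) V V + bf V W = bf h p v u`.
As `f 0 = 0` and `f' = bf h p v u` is constant, `f 1 = bf h p v u`. -/
theorem IsExp.gauss (hm : Curv.IsMetric h) (hE : IsExp h Ex) (p v u : E) :
    bf h (Ex p v) (fderiv ℝ (Ex p) v v) (fderiv ℝ (Ex p) v u) = bf h p v u := by
  have hs := hE.smooth_at p
  set W : ℝ → E := fun t => fderiv ℝ (fderiv ℝ (Ex p)) (t • v) (t • u) v +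
    fderiv ℝ (Ex p) (t • v) u with hW
  have hd1 : ∀ x, HasFDerivAt (Ex p) (fderiv ℝ (Ex p) x) x := fun x =>
    (hs.differentiable (by simp)).differentiableAt.hasFDerivAt
  have hs2 : ContDiff ℝ ∞ (fderiv ℝ (Ex p)) := hs.fderiv_right (by simp)
  have hd2 : ∀ x, HasFDerivAt (fderiv ℝ (Ex p)) (fderiv ℝ (fderiv ℝ (Ex p)) x) x := fun x =>
    (hs2.differentiable (by simp)).differentiableAt.hasFDerivAt
  have hsym : ∀ x a b, fderiv ℝ (fderiv ℝ (Ex p)) x a b = fderiv ℝ (fderiv ℝ (Ex p)) x b a :=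
    fun x a b => (hs.contDiffAt.isSymmSndFDerivAt
      (by rw [minSmoothness_of_isRCLikeNormedField]; exact WithTop.coe_le_coe.2 le_top)).eq a b
  -- the derivative of `J`
  have hJ : ∀ t : ℝ, HasDerivAt (fun t : ℝ => fderiv ℝ (Ex p) (t • v) (t • u)) (W t) t := by
    intro t
    have h1 : HasDerivAt (fun t : ℝ => t • v) v t := by
      simpa using (hasDerivAt_id t).smul_const v
    have h2 : HasDerivAt (fun t : ℝ => t • u) u t := by
      simpa using (hasDerivAt_id t).smul_const u
    have h3 := ((hd2 (t • v)).comp_hasDerivAt t h1).clm_apply h2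
    have h4 : fderiv ℝ (fderiv ℝ (Ex p)) (t • v) v (t • u) + fderiv ℝ (Ex p) (t • v) u = W t := by
      rw [hW, hsym]
    rw [← h4]
    exact h3
  -- the variation of the velocity
  have hV : ∀ t : ℝ, HasDerivAt (fun ε : ℝ => vel Ex p (v + ε • u) t) (W t) 0 := by
    intro t
    have h1 : HasDerivAt (fun ε : ℝ => v + ε • u) u 0 := by
      simpa using ((hasDerivAt_id (0 : ℝ)).smul_const u).const_add v
    have h2 : HasDerivAt (fun ε : ℝ => t • (v + ε • u)) (t • u) 0 := h1.const_smul t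
    have h5 : HasFDerivAt (fderiv ℝ (Ex p)) (fderiv ℝ (fderiv ℝ (Ex p)) (t • v))
        (t • (v + (0 : ℝ) • u)) := by
      simpa using hd2 (t • v)
    have h3 := (h5.comp_hasDerivAt (0 : ℝ) h2).clm_apply h1
    simp only [Function.comp, zero_smul, add_zero] at h3
    exact h3
  -- the variation of the curve
  have hG : ∀ t : ℝ, HasDerivAt (fun ε : ℝ => Ex p (t • (v + ε • u)))
      (fderiv ℝ (Ex p) (t • v) (t • u)) 0 := by
    intro t
    have h1 : HasDerivAt (fun ε : ℝ => v + ε • u) u 0 := by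
      simpa using ((hasDerivAt_id (0 : ℝ)).smul_const u).const_add v
    have h2 : HasDerivAt (fun ε : ℝ => t • (v + ε • u)) (t • u) 0 := h1.const_smul t
    have h5 : HasFDerivAt (Ex p) (fderiv ℝ (Ex p) (t • v)) (t • (v + (0 : ℝ) • u)) := by
      simpa using hd1 (t • v)
    exact h5.comp_hasDerivAt (0 : ℝ) h2
  -- the energy identity, differentiated
  have hen : ∀ t : ℝ, fderiv ℝ (bf h) (Ex p (t • v)) (fderiv ℝ (Ex p) (t • v) (t • u))
      (vel Ex p v t) (vel Ex p v t) + 2 * bf h (Ex p (t • v)) (vel Ex p v t) (W t) =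
      2 * bf h p v u := by
    intro t
    have h1 := hasDerivWithinAt_bf hm (hG t).hasDerivWithinAt (s := univ)
      (hV t).hasDerivWithinAt (hV t).hasDerivWithinAt
    rw [hasDerivWithinAt_univ] at h1
    simp only [zero_smul, add_zero] at h1
    have h2 : (fun ε : ℝ => bf h (Ex p (t • (v + ε • u))) (vel Ex p (v + ε • u) t)
        (vel Ex p (v + ε • u) t)) = fun ε : ℝ => bf h p (v + ε • u) (v + ε • u) :=
      funext fun ε => hE.energy hm p (v + ε • u) t
    rw [h2] at h1
    have h3 : HasDerivAt (fun ε : ℝ => v + ε • u) u 0 := by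
      simpa using ((hasDerivAt_id (0 : ℝ)).smul_const u).const_add v
    have h4 : HasDerivAt (fun ε : ℝ => bf h p (v + ε • u) (v + ε • u))
        (bf h p u (v + (0 : ℝ) • u) + bf h p (v + (0 : ℝ) • u) u) 0 :=
      ((bf h p).hasFDerivAt.comp_hasDerivAt (0 : ℝ) h3).clm_apply h3
    have h5 := h1.unique h4
    simp only [zero_smul, add_zero] at h5
    rw [bf_symm hm p u v] at h5
    rw [bf_symm hm _ (W t) (vel Ex p v t)] at h5
    linarith
  -- the derivative of `f`
  have hf : ∀ t : ℝ, HasDerivAt (fun t : ℝ => bf h (Ex p (t • v)) (vel Ex p v t)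
      (fderiv ℝ (Ex p) (t • v) (t • u))) (bf h p v u) t := by
    intro t
    have h1 := hasDerivWithinAt_bf hm (hE.hasDerivAt p v t).hasDerivWithinAt (s := univ)
      (hE.geo p v t).hasDerivWithinAt (hJ t).hasDerivWithinAt
    rw [hasDerivWithinAt_univ] at h1
    have h2 := hen t
    rw [bf_acc hm] at h1
    have h3 : fderiv ℝ (bf h) (Ex p (t • v)) (vel Ex p v t) (vel Ex p v t)
          (fderiv ℝ (Ex p) (t • v) (t • u)) +
        (2⁻¹ * fderiv ℝ (bf h) (Ex p (t • v)) (fderiv ℝ (Ex p) (t • v) (t • u)) (vel Ex p v t)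
          (vel Ex p v t) - fderiv ℝ (bf h) (Ex p (t • v)) (vel Ex p v t) (vel Ex p v t)
          (fderiv ℝ (Ex p) (t • v) (t • u))) +
        bf h (Ex p (t • v)) (vel Ex p v t) (W t) = bf h p v u := by
      linarith
    rw [h3] at h1
    exact h1
  have hc : ∀ t : ℝ, HasDerivAt (fun t : ℝ => bf h (Ex p (t • v)) (vel Ex p v t)
      (fderiv ℝ (Ex p) (t • v) (t • u)) - t * bf h p v u) 0 t := by
    intro t
    have h1 := (hf t).sub ((hasDerivAt_id t).mul_const (bf h p v u))
    rw [one_mul, sub_self] at h1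
    exact h1
  have h1 := is_const_of_deriv_eq_zero (fun t => (hc t).differentiableAt)
    (fun t => (hc t).deriv) 1 0
  simp only [one_smul, zero_smul, map_zero, one_mul, zero_mul, sub_zero] at h1
  have h2 : vel Ex p v 1 = fderiv ℝ (Ex p) v v := by
    unfold vel
    rw [one_smul]
  rw [h2] at h1
  linarith

end Pool.Agent.Lib.MP_df705a_gt.Pin.A
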