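import Pool.Agent.Lib.MP_df705a_gt.Pin.Defs
import Pool.Agent.Lib.MP_df705a_gt.Coll.T.B1

/-!
# Stable coverings of closed manifolds by the coordinate space
-/

open scoped Manifold ContDiff Topology
open Set Bundle Module Filter MeasureTheory

noncomputable section

namespace Pool.Agent.Lib.MP_df705a_gt.Pin

open Pool.Agent.Lib.MP_df705a_gt.Twist Pool.Agent.Lib.MP_df705a_gt.Perm
open Pool.Agent.Lib.MP_df705a_gt.Circ (cf Para)
open Pool.Agent.Lib.MP_df705a_gt.Coll (Met)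

variable {E' : Type*} [NormedAddCommGroup E'] [NormedSpace ℝ E'] [FiniteDimensional ℝ E']
  {E : Type*} [NormedAddCommGroup E] [NormedSpace ℝ E] [FiniteDimensional ℝ E]
  {F : Type*} [NormedAddCommGroup F] [InnerProductSpace ℝ F] [FiniteDimensional ℝ F]
  {M : Type*} [TopologicalSpace M] [ChartedSpace E M] [IsManifold 𝓘(ℝ, E) ∞ M]

/-- `(q, s) : E' → M × F` is a smooth covering. -/
structure StableCover (E : Type*) [NormedAddCommGroup E] [NormedSpace ℝ E] {M : Type*}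
    [TopologicalSpace M] [ChartedSpace E M] (q : E' → M) (s : E' → F) : Prop where
  cov : IsCoveringMap fun y => (q y, s y)
  surj : Function.Surjective fun y => (q y, s y)
  smooth_q : ContMDiff 𝓘(ℝ, E') 𝓘(ℝ, E) ∞ q
  smooth_s : ContDiff ℝ ∞ s
  bij : ∀ y, Function.Bijective fun v : E' =>
    ((mfderiv 𝓘(ℝ, E') 𝓘(ℝ, E) q y v : E), fderiv ℝ s y v)

/-- The metric `q^* g + |ds|²`. -/
def st (g : Met E M) (q : E' → M) (s : E' → F) : Curv.Coeff E' := fun y i j =>
  cf g q y i j + inner ℝ (fderiv ℝ s y (finBasis ℝ E' i)) (fderiv ℝ s y (finBasis ℝ E' j))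

/-- `Ric_g ≥ -κ g` at the point `x` of `M` (in the preferred chart at `x`). -/
def MRicGe (g : Met E M) (κ : ℝ) (x : M) : Prop :=
  RicGeAt (coeff g x) κ (extChartAt 𝓘(ℝ, E) x x)

/-- `Ric_g ≤ κ g` at the point `x` of `M` (in the preferred chart at `x`). -/
def MRicLe (g : Met E M) (κ : ℝ) (x : M) : Prop :=
  RicLeAt (coeff g x) κ (extChartAt 𝓘(ℝ, E) x x)

/-- The differential of the function `ρ` on `M` has norm at most one for the metric `g`. -/
def GradLeOne (g : Met E M) (ρ : M → ℝ) : Prop :=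
  ∀ (x : M) (v : TangentSpace 𝓘(ℝ, E) x),
    let d : E →L[ℝ] ℝ := mfderiv 𝓘(ℝ, E) 𝓘(ℝ, ℝ) ρ x
    (d v) ^ 2 ≤ g.inner x v v

end Pool.Agent.Lib.MP_df705a_gt.Pin
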