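import Pool.Agent.Lib.MP_df705a_gt.Mg.G065
import Pool.Agent.Lib.MP_df705a_gt.Mg.G070

/-!
# Ricci pinching, part A, AH2: the theorem of Hopf and Rinow
-/

open scoped Manifold ContDiff Topology
open Set Bundle Module Filter MeasureTheory

noncomputable section

set_option linter.unusedSectionVars false

namespace Pool.Agent.Lib.MP_df705a_gt.Pin.A

variable {E : Type*} [NormedAddCommGroup E] [NormedSpace ℝ E] [FiniteDimensional ℝ E]
  {h : Curv.Coeff E}

variable {Ex : E → E → E}

/-- The theorem of Hopf and Rinow.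
Proof: let `L = dh h p q`; the case `L = 0` is `p = q`, `v = 0`. The ball `{x | dh h p x ≤ L}` is
compact, let `ε` be a normal radius for its points (`IsExp.exists_nb`). For `s₀ = min (ε / 3) L`,
`Nb.split` gives `v₀` with `nm h p v₀ = s₀` and `dh h (Ex p v₀) q = L - s₀`; put `e = v₀ / s₀`. The
set `T` of `t ∈ [s₀, L]` with `dh h (Ex p (t e)) q = L - t` is closed and contains `s₀`; let `t` be
its maximum. If `t < L`, `hopf_rinow_step` with `s = min (ε / 3) (min t (L - t))` gives a larger
element. So `L ∈ T`, `dh h (Ex p (L e)) q = 0`, and `v = L e`. -/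
theorem hopf_rinow (hm : Curv.IsMetric h) (hP : Proper h) (hE : IsExp h Ex) (p q : E) :
    ∃ v, nm h p v = dh h p q ∧ Ex p v = q := by
  rcases eq_or_ne p q with rfl | hpq
  · exact ⟨0, by rw [nm_zero, dh_self hm], hE.zero p⟩
  have hL : 0 < dh h p q := dh_pos hm hpq
  obtain ⟨ε, hε, hN⟩ := hE.exists_nb hm (hP p (dh h p q))
  set L := dh h p q with hLdef
  set s₀ := min (ε / 3) L with hs₀
  have hs0 : 0 < s₀ := lt_min (by linarith) hL
  have hs1 : s₀ ≤ ε / 3 := min_le_left _ _
  have hs2 : s₀ ≤ L := min_le_right _ _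
  have hNp : Nb h Ex p ε := hN p (by
    change dh h p p ≤ L
    rw [dh_self hm]
    exact hL.le)
  obtain ⟨v₀, hv₀, hv₀q⟩ := Nb.split hm hE (q := q) hNp hs0 (by linarith) hs2
  set e : E := s₀⁻¹ • v₀ with he
  have hse : s₀ • e = v₀ := by rw [he, smul_smul, mul_inv_cancel₀ hs0.ne', one_smul]
  have hnme : nm h p e = 1 := by
    rw [he, nm_smul, hv₀, abs_of_pos (inv_pos.2 hs0), inv_mul_cancel₀ hs0.ne']
  have hEc : Continuous fun t : ℝ => dh h (Ex p (t • e)) q := by
    have h1 : Continuous fun t : ℝ => Ex p (t • e) :=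
      (hE.smooth_at p).continuous.comp (continuous_id.smul continuous_const)
    exact (dh_continuous hm).comp (h1.prodMk continuous_const)
  have hTc : IsClosed {t : ℝ | dh h (Ex p (t • e)) q = L - t} :=
    isClosed_eq hEc (continuous_const.sub continuous_id)
  have hTk : IsCompact (Icc s₀ L ∩ {t : ℝ | dh h (Ex p (t • e)) q = L - t}) :=
    isCompact_Icc.inter_right hTc
  have hTn : (Icc s₀ L ∩ {t : ℝ | dh h (Ex p (t • e)) q = L - t}).Nonempty := by
    refine ⟨s₀, ⟨le_refl _, hs2⟩, ?_⟩
    change dh h (Ex p (s₀ • e)) q = L - s₀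
    rw [hse, hv₀q]
  obtain ⟨t, ⟨⟨ht1, ht2⟩, ht3⟩, htmax⟩ := hTk.exists_isGreatest hTn
  have ht3' : dh h (Ex p (t • e)) q = L - t := ht3
  have htL : t = L := by
    by_contra hne
    have htlt : t < L := lt_of_le_of_ne ht2 hne
    have ht0 : 0 < t := hs0.trans_le ht1
    set s := min (ε / 3) (min t (L - t)) with hs
    have hspos : 0 < s := lt_min (by linarith) (lt_min ht0 (by linarith))
    have hsa : s ≤ ε / 3 := min_le_left _ _
    have hsb : s ≤ t := (min_le_right _ _).trans (min_le_left _ _)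
    have hsc : s ≤ L - t := (min_le_right _ _).trans (min_le_right _ _)
    have hstep := hopf_rinow_step hm hE (p := p) (q := q) (e := e) (ε := ε) (s := s) (t := t)
      (fun x hx => hN x hx) hnme hspos (by linarith) hsb (by rw [← hLdef]; linarith) ht3'
    have h1 : t + s ∈ Icc s₀ L ∩ {t : ℝ | dh h (Ex p (t • e)) q = L - t} :=
      ⟨⟨by linarith, by linarith⟩, hstep⟩
    have h2 := htmax h1
    linarith
  refine ⟨L • e, by rw [nm_smul, hnme, abs_of_pos hL, mul_one], ?_⟩
  rw [htL, sub_self] at ht3'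
  by_contra hne
  exact absurd ht3' (dh_pos hm hne).ne'

end Pool.Agent.Lib.MP_df705a_gt.Pin.A
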