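import Pool.Agent.Lib.MP_df705a_gt.Mg.G003

/-!
# Ricci pinching, part A, AO4: the flow of a smooth vector field with compact support
-/

open scoped ContDiff Topology
open Set Filter MeasureTheory

noncomputable section

set_option linter.unusedSectionVars false

namespace Pool.Agent.Lib.MP_df705a_gt.Pin.A

variable {V : Type*} [NormedAddCommGroup V] [NormedSpace ℝ V] [CompleteSpace V]

theorem AO4_aux (m : ℕ) : ∀ F : V → V, ContDiff ℝ ∞ F → (∀ x, ‖fderiv ℝ F x‖ ≤ 2 ^ m / 2) →
    HasFlow F := by
  induction m with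
  | zero =>
    intro F hF hb
    refine hasFlow_half hF fun x => ?_
    have := hb x
    rwa [pow_zero] at this
  | succ m ih =>
    intro F hF hb
    refine hasFlow_double (ih _ (contDiff_const.smul hF) fun x => ?_)
    have hd : DifferentiableAt ℝ F x := hF.differentiable (by simp) x
    rw [fderiv_fun_const_smul hd, norm_smul]
    have h1 := hb x
    rw [pow_succ] at h1
    have h2 : ‖(2⁻¹ : ℝ)‖ = 1 / 2 := by
      rw [Real.norm_eq_abs]
      norm_num
    rw [h2]
    linarith

/-- Proof: the derivative of `F` is continuous with compact support, so `‖fderiv F x‖ ≤ 2 ^ m / 2`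
for some `m : ℕ`; by induction on `m` from `hasFlow_half` (`m = 0`) and `hasFlow_double`
(`‖fderiv (F / 2)‖ ≤ 2 ^ m / 2`). -/
theorem hasFlow_of_hasCompactSupport {F : V → V} (hF : ContDiff ℝ ∞ F)
    (hs : HasCompactSupport F) : HasFlow F := by
  have h1 : ContDiff ℝ 1 F := hF.of_le (by exact_mod_cast le_top)
  obtain ⟨C, hC⟩ := (hs.fderiv ℝ).exists_bound_of_continuous (h1.continuous_fderiv one_ne_zero)
  obtain ⟨m, hm⟩ := pow_unbounded_of_one_lt (2 * C) (one_lt_two : (1 : ℝ) < 2)
  exact AO4_aux m F hF fun x => (hC x).trans (by linarith)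

end Pool.Agent.Lib.MP_df705a_gt.Pin.A
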