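import Pool.Agent.Lib.MP_df705a_gt.Mg.G065

/-!
# TASK GE1: positivity of the pulled back metric
-/

open scoped Manifold ContDiff Topology
open Set Bundle Module Filter MeasureTheory

noncomputable section

namespace Pool.Agent.Lib.MP_df705a_gt.Pin

open Pool.Agent.Lib.MP_df705a_gt.Twist Pool.Agent.Lib.MP_df705a_gt.Twist.Alg
open Pool.Agent.Lib.MP_df705a_gt.Perm
open Pool.Agent.Lib.MP_df705a_gt.Circ (cf Para)
open Pool.Agent.Lib.MP_df705a_gt.Coll (Met)
open Pool.Agent.Lib.MP_df705a_gt.Coll.T (mat)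

variable {E' : Type*} [NormedAddCommGroup E'] [NormedSpace ℝ E'] [FiniteDimensional ℝ E']
  {E : Type*} [NormedAddCommGroup E] [NormedSpace ℝ E] [FiniteDimensional ℝ E]
  {F : Type*} [NormedAddCommGroup F] [InnerProductSpace ℝ F] [FiniteDimensional ℝ F]
  {M : Type*} [TopologicalSpace M] [ChartedSpace E M] [IsManifold 𝓘(ℝ, E) ∞ M]
  {q : E' → M} {s : E' → F}

private theorem GE1_bil {V : Type*} [AddCommGroup V] [Module ℝ V] {ι : Type*} [Fintype ι]
    (b : Basis ι ℝ V) (B : V → V → ℝ) (h1 : ∀ u u' v, B (u + u') v = B u v + B u' v)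
    (h2 : ∀ (c : ℝ) u v, B (c • u) v = c * B u v) (h3 : ∀ u v v', B u (v + v') = B u v + B u v')
    (h4 : ∀ (c : ℝ) u v, B u (c • v) = c * B u v) (u v : V) :
    ∑ i, ∑ j, B (b i) (b j) * (b.repr u i * b.repr v j) = B u v := by
  let L : V →ₗ[ℝ] V →ₗ[ℝ] ℝ := LinearMap.mk₂ ℝ B h1 h2 h3 h4
  have h5 : L u v = ∑ i, ∑ j, B (b i) (b j) * (b.repr u i * b.repr v j) := by
    conv_lhs => rw [← b.sum_repr u]
    rw [map_sum, LinearMap.sum_apply]
    refine Finset.sum_congr rfl fun i _ => ?_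
    conv_lhs => rw [← b.sum_repr v]
    rw [map_sum]
    refine Finset.sum_congr rfl fun j _ => ?_
    rw [map_smul, LinearMap.map_smul₂, smul_eq_mul, smul_eq_mul]
    change _ * (_ * B (b i) (b j)) = _
    ring
  rw [← h5]
  rfl

theorem ip_st (g : Met E M) (q : E' → M) (s : E' → F) (y u v : E') :
    Curv.ip (st g q s) y u v =
      g.inner (q y) (mfderiv 𝓘(ℝ, E') 𝓘(ℝ, E) q y u) (mfderiv 𝓘(ℝ, E') 𝓘(ℝ, E) q y v) +
        inner ℝ (fderiv ℝ s y u) (fderiv ℝ s y v) := by
  let D : E' →L[ℝ] E := mfderiv 𝓘(ℝ, E') 𝓘(ℝ, E) q y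
  let B : E →L[ℝ] E →L[ℝ] ℝ := g.inner (q y)
  change ∑ i, ∑ j, (B (D (finBasis ℝ E' i)) (D (finBasis ℝ E' j)) +
    inner ℝ (fderiv ℝ s y (finBasis ℝ E' i)) (fderiv ℝ s y (finBasis ℝ E' j))) *
      ((finBasis ℝ E').repr u i * (finBasis ℝ E').repr v j) =
    B (D u) (D v) + inner ℝ (fderiv ℝ s y u) (fderiv ℝ s y v)
  refine GE1_bil (finBasis ℝ E') (fun u v =>
      B (D u) (D v) + inner ℝ (fderiv ℝ s y u) (fderiv ℝ s y v)) ?_ ?_ ?_ ?_ u v
  · intro u u' v
    rw [D.map_add u u', (fderiv ℝ s y).map_add, map_add,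
      add_apply, inner_add_left]
    ring
  · intro c u v
    rw [D.map_smul c u, (fderiv ℝ s y).map_smul, map_smul,
      smul_apply, inner_smul_left, smul_eq_mul]
    simp only [conj_trivial]
    ring
  · intro u v v'
    rw [D.map_add v v', (fderiv ℝ s y).map_add, map_add, inner_add_right]
    ring
  · intro c u v
    rw [D.map_smul c v, (fderiv ℝ s y).map_smul, map_smul, inner_smul_right, smul_eq_mul]
    ring

private theorem GE1_repr (i : Fin (finrank ℝ E)) {f : E' → E} {y : E'} (hf : ContDiffAt ℝ ∞ f y) :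
    ContDiffAt ℝ ∞ (fun z => (finBasis ℝ E).repr (f z) i) y := by
  have h1 : ContDiff ℝ ∞ fun v : E => (finBasis ℝ E).repr v i :=
    (LinearMap.toContinuousLinearMap ((finBasis ℝ E).coord i)).contDiff
  exact h1.contDiffAt.comp y hf

/-- Smooth by `st_law` (the coefficients of `g` in a chart are smooth on the target, see
`Twist.Law`/`coeff` lemmas), positive definite by `ip_st` and injectivity. -/
theorem isMetric_st (g : Met E M) (H : StableCover E q s) : Curv.IsMetric (st g q s) := by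
  refine ⟨fun i j => contDiff_iff_contDiffAt.2 fun y => ?_, fun y => ?_⟩
  · have h1 : (fun x => st g q s x i j) =ᶠ[𝓝 y] fun z =>
        fB (coeff g (q y)) (tq E q y z) (fderiv ℝ (tq E q y) z (finBasis ℝ E' i))
        (fderiv ℝ (tq E q y) z (finBasis ℝ E' j)) +
        inner ℝ (fderiv ℝ s z (finBasis ℝ E' i)) (fderiv ℝ s z (finBasis ℝ E' j)) := by
      filter_upwards [st_law g H.smooth_q s y] with z hz
      exact hz i j
    refine ContDiffAt.congr_of_eventuallyEq ?_ h1
    have ht := contDiffAt_tq H.smooth_q y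
    have hdt : ContDiffAt ℝ ∞ (fderiv ℝ (tq E q y)) y := ht.fderiv_right (m := ∞) (by simp)
    have hds : ContDiffAt ℝ ∞ (fderiv ℝ s) y :=
      H.smooth_s.contDiffAt.fderiv_right (m := ∞) (by simp)
    refine ContDiffAt.add ?_ (ContDiffAt.inner ℝ (hds.clm_apply contDiffAt_const)
      (hds.clm_apply contDiffAt_const))
    simp only [fB, mkB_apply]
    refine ContDiffAt.sum fun a _ => ContDiffAt.sum fun b _ => ?_
    refine ContDiffAt.mul ?_ ((GE1_repr a (hdt.clm_apply contDiffAt_const)).mul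
      (GE1_repr b (hdt.clm_apply contDiffAt_const)))
    have hc : ContDiffAt ℝ ∞ (fun x => coeff g (q y) x a b) (tq E q y y) :=
      g3_coeff_smooth g (q y) (mem_extChartAt_target (q y)) a b
    exact hc.comp y ht
  · rw [Matrix.posDef_iff_dotProduct_mulVec]
    refine ⟨?_, ?_⟩
    · ext i j
      rw [Matrix.conjTranspose_apply, star_trivial]
      change g.inner _ _ _ + inner ℝ _ _ = g.inner _ _ _ + inner ℝ _ _
      rw [real_inner_comm, g.symm]
    · intro c hc
      have h1 : (∑ i, c i • finBasis ℝ E' i) ≠ 0 := by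
        intro h0
        apply hc
        ext i
        have := congrArg (fun v => (finBasis ℝ E').repr v i) h0
        simpa [Finsupp.single_apply] using this
      have h3 : 0 < Curv.ip (st g q s) y (∑ i, c i • finBasis ℝ E' i)
          (∑ i, c i • finBasis ℝ E' i) := by
        set w := ∑ i, c i • finBasis ℝ E' i with hw
        rw [ip_st]
        have h4 : 0 ≤ inner ℝ (fderiv ℝ s y w) (fderiv ℝ s y w) := real_inner_self_nonneg
        by_cases h5 : (mfderiv 𝓘(ℝ, E') 𝓘(ℝ, E) q y w : E) = 0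
        · have h6 : fderiv ℝ s y w ≠ 0 := by
            intro h6
            apply h1
            apply (H.bij y).1
            change ((mfderiv 𝓘(ℝ, E') 𝓘(ℝ, E) q y w : E), fderiv ℝ s y w) =
              ((mfderiv 𝓘(ℝ, E') 𝓘(ℝ, E) q y (0 : E') : E), fderiv ℝ s y 0)
            rw [h5, h6, (fderiv ℝ s y).map_zero]
            have h7 : (mfderiv 𝓘(ℝ, E') 𝓘(ℝ, E) q y (0 : E') : E) = 0 :=
              (mfderiv 𝓘(ℝ, E') 𝓘(ℝ, E) q y).map_zero
            rw [h7]
          have h7 : 0 < inner ℝ (fderiv ℝ s y w) (fderiv ℝ s y w) := real_inner_self_pos.2 h6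
          have h8 : 0 ≤ g.inner (q y) (mfderiv 𝓘(ℝ, E') 𝓘(ℝ, E) q y w)
              (mfderiv 𝓘(ℝ, E') 𝓘(ℝ, E) q y w) := by
            have h9 : mfderiv 𝓘(ℝ, E') 𝓘(ℝ, E) q y w = 0 := h5
            rw [h9, map_zero]
          linarith
        · have h8 := g.pos (q y) (mfderiv 𝓘(ℝ, E') 𝓘(ℝ, E) q y w) h5
          linarith
      refine h3.trans_eq ?_
      unfold Curv.ip
      rw [star_trivial, dotProduct]
      apply Finset.sum_congr rfl
      intro i _
      rw [Matrix.mulVec, dotProduct, Finset.mul_sum]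
      apply Finset.sum_congr rfl
      intro j _
      rw [Basis.repr_sum_self]
      ring

end Pool.Agent.Lib.MP_df705a_gt.Pin
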