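import Pool.Agent.Lib.MP_df705a_gt.Mg.G005

/-!
# Ricci pinching, part A, AG7: the exponential map, differential equation
-/

open scoped Manifold ContDiff Topology
open Set Bundle Module Filter MeasureTheory

noncomputable section

set_option linter.unusedSectionVars false

namespace Pool.Agent.Lib.MP_df705a_gt.Pin.A

variable {E : Type*} [NormedAddCommGroup E] [NormedSpace ℝ E] [FiniteDimensional ℝ E]
  {h : Curv.Coeff E}

namespace AG7Aux

theorem ex_smooth {Φ : E × E → E × E} (hΦ : IsFlow h Φ) :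
    ContDiff ℝ ∞ fun q : E × E => exOf Φ q.1 q.2 := contDiff_fst.comp hΦ.smooth

/-- the reparametrised curve is a geodesic -/
theorem isGeo (hm : Curv.IsMetric h) {Φ : E × E → E × E} (hΦ : IsFlow h Φ) (p v : E) (s t : ℝ) :
    IsGeo h (fun τ : ℝ => exOf Φ p ((s + τ * t) • v)) (fun τ : ℝ => t • vel (exOf Φ) p v (s + τ * t))
      1 := by
  intro τ _
  have ha : HasDerivAt (fun τ : ℝ => s + τ * t) t τ := by
    simpa using ((hasDerivAt_id τ).mul_const t).const_add s
  constructor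
  · have h1 := (hasDerivAt_ex (AG7Aux.ex_smooth hΦ) p v (s + τ * t)).scomp τ ha
    exact h1.hasDerivWithinAt
  · have h1 := ((hΦ.geo_all hm p v (s + τ * t)).scomp τ ha).const_smul t
    have h2 : t • t • acc h (exOf Φ p ((s + τ * t) • v)) (vel (exOf Φ) p v (s + τ * t)) =
        acc h (exOf Φ p ((s + τ * t) • v)) (t • vel (exOf Φ) p v (s + τ * t)) := by
      rw [acc_smul hm, smul_smul, sq]
    rw [h2] at h1
    exact h1.hasDerivWithinAt

end AG7Aux

/-- Proof: for fixed `s, t` the curves `τ ↦ exOf Φ x ((τ t) w)`, `x = exOf Φ p (s v)`,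
`w = vel (exOf Φ) p v s`, and `τ ↦ exOf Φ p ((s + τ t) v)` are geodesics on `[0, 1]`
(`IsFlow.geo_all`, chain rule, `acc_smul`) with the velocities `t • vel (exOf Φ) x w (τ t)` and
`t • vel (exOf Φ) p v (s + τ t)`; the initial data are `x` and `t • w` for both (`IsFlow.vel_zero`,
`IsFlow.zero`). `IsGeo.unique` at `τ = 1`. -/
theorem IsFlow.flow_all (hm : Curv.IsMetric h) {Φ : E × E → E × E} (hΦ : IsFlow h Φ) (p v : E)
    (s t : ℝ) : exOf Φ (exOf Φ p (s • v)) (t • vel (exOf Φ) p v s) = exOf Φ p ((s + t) • v) := by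
  set x := exOf Φ p (s • v) with hx
  set w := vel (exOf Φ) p v s with hw
  have g1 := AG7Aux.isGeo hm hΦ x w 0 t
  have g2 := AG7Aux.isGeo hm hΦ p v s t
  have h1 : (1 : ℝ) ∈ Icc (0 : ℝ) 1 := ⟨zero_le_one, le_rfl⟩
  have h0 : exOf Φ x ((0 + 0 * t) • w) = exOf Φ p ((s + 0 * t) • v) := by
    rw [zero_mul, add_zero, add_zero, zero_smul, ← hx]
    unfold exOf
    rw [hΦ.zero hm]
  have h0' : t • vel (exOf Φ) x w (0 + 0 * t) = t • vel (exOf Φ) p v (s + 0 * t) := by
    rw [zero_mul, add_zero, add_zero, hΦ.vel_zero hm]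
  have h2 := (g1.unique hm g2 h0 h0' h1).1
  simp only [zero_add, one_mul] at h2
  exact h2

/-- The exponential map of a complete metric. -/
theorem exists_exp (hm : Curv.IsMetric h) (hP : Proper h) : ∃ Ex, IsExp h Ex := by
  obtain ⟨Φ, hΦ⟩ := exists_isFlow hm hP
  refine ⟨exOf Φ, ⟨?_, ?_, hΦ.vel_zero hm, hΦ.geo_all hm, hΦ.flow_all hm⟩⟩
  · exact contDiff_fst.comp hΦ.smooth
  · intro p
    unfold exOf
    rw [hΦ.zero hm]

end Pool.Agent.Lib.MP_df705a_gt.Pin.A
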