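import Pool.Agent.Lib.MP_df705a_gt.Pin.GE1
import Pool.Agent.Lib.MP_df705a_gt.Pin.AH2
import Pool.Agent.Lib.MP_df705a_gt.Pin.AG7

/-!
# The Riemannian distance of the closed manifold and of its stable covering
-/

open scoped Manifold ContDiff Topology ENNReal
open Set Bundle Module Filter MeasureTheory

noncomputable section

namespace Pool.Agent.Lib.MP_df705a_gt.Pin

open Pool.Agent.Lib.MP_df705a_gt.Coll (Met)

variable {E' : Type*} [NormedAddCommGroup E'] [NormedSpace ℝ E'] [FiniteDimensional ℝ E']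
  {E : Type*} [NormedAddCommGroup E] [NormedSpace ℝ E] [FiniteDimensional ℝ E]
  {F : Type*} [NormedAddCommGroup F] [InnerProductSpace ℝ F] [FiniteDimensional ℝ F]
  {M : Type*} [TopologicalSpace M] [ChartedSpace E M] [IsManifold 𝓘(ℝ, E) ∞ M]
  {q : E' → M} {s : E' → F}

/-- The Riemannian distance of the metric `g`: Mathlib's `riemannianEDist` (the infimum of the
lengths of `C¹` paths) for the length `√ (g(v, v))` of the tangent vectors `v`. -/
def mdist (g : Met E M) (x y : M) : ℝ≥0∞ :=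
  letI : ∀ x : M, ENorm (TangentSpace 𝓘(ℝ, E) x) :=
    fun x => ⟨fun v => ENNReal.ofReal (√ (g.inner x v v))⟩
  Manifold.riemannianEDist 𝓘(ℝ, E) x y

theorem enorm_smul_met (g : Met E M) (x : M) (r : ℝ) (v : TangentSpace 𝓘(ℝ, E) x) :
    ENNReal.ofReal (√ (g.inner x (r • v) (r • v))) =
      ‖r‖ₑ * ENNReal.ofReal (√ (g.inner x v v)) := by
  have h1 : g.inner x (r • v) (r • v) = r ^ 2 * g.inner x v v := by
    rw [map_smul, map_smul, _root_.smul_apply, smul_eq_mul, smul_eq_mul]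
    ring
  rw [h1, Real.sqrt_mul (sq_nonneg r), Real.sqrt_sq_eq_abs, ENNReal.ofReal_mul (abs_nonneg r),
    ← Real.norm_eq_abs, ofReal_norm_eq_enorm]

theorem mdist_triangle (g : Met E M) (x y z : M) : mdist g x z ≤ mdist g x y + mdist g y z := by
  let I0 : ∀ x : M, ENorm (TangentSpace 𝓘(ℝ, E) x) :=
    fun x => ⟨fun v => ENNReal.ofReal (√ (g.inner x v v))⟩
  let I1 : ∀ x : M, ENormSMulClass ℝ (TangentSpace 𝓘(ℝ, E) x) :=
    fun x => ⟨fun r v => enorm_smul_met g x r v⟩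
  exact Manifold.riemannianEDist_triangle (I := 𝓘(ℝ, E)) (x := x) (y := y) (z := z)

/-- The projection to `M` does not increase distances. -/
theorem mdist_le_dh (g : Met E M) (H : StableCover E q s) (hP : Proper (st g q s)) (x y : E') :
    mdist g (q x) (q y) ≤ ENNReal.ofReal (dh (st g q s) x y) := by
  have hm := isMetric_st g H
  obtain ⟨Ex, hE⟩ := A.exists_exp hm hP
  obtain ⟨v, hv, hxy⟩ := A.hopf_rinow hm hP hE x y
  have hc : ContDiff ℝ ∞ fun t : ℝ => Ex x (t • v) :=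
    (hE.smooth_at x).comp (contDiff_id.smul contDiff_const)
  have hγ : ContMDiff 𝓘(ℝ, ℝ) 𝓘(ℝ, E) 1 fun t : ℝ => q (Ex x (t • v)) :=
    (H.smooth_q.comp hc.contMDiff).of_le (by exact_mod_cast le_top)
  let I0 : ∀ x : M, ENorm (TangentSpace 𝓘(ℝ, E) x) :=
    fun x => ⟨fun v => ENNReal.ofReal (√ (g.inner x v v))⟩
  let I1 : ∀ x : M, ENormSMulClass ℝ (TangentSpace 𝓘(ℝ, E) x) :=
    fun x => ⟨fun r v => enorm_smul_met g x r v⟩
  show Manifold.riemannianEDist 𝓘(ℝ, E) (q x) (q y) ≤ _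
  refine (Manifold.riemannianEDist_le_pathELength (I := 𝓘(ℝ, E)) (a := 0) (b := 1)
    hγ.contMDiffOn ?_ ?_ zero_le_one).trans ?_
  · show q (Ex x ((0 : ℝ) • v)) = q x
    rw [zero_smul, hE.zero]
  · show q (Ex x ((1 : ℝ) • v)) = q y
    rw [one_smul, hxy]
  rw [Manifold.pathELength_eq_lintegral_mfderiv_Icc]
  have hpt : ∀ t : ℝ, ‖mfderiv 𝓘(ℝ, ℝ) 𝓘(ℝ, E) (fun t : ℝ => q (Ex x (t • v))) t (1 : ℝ)‖ₑ ≤
      ENNReal.ofReal (dh (st g q s) x y) := by
    intro t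
    obtain ⟨w, hw⟩ : ∃ w : E', w = A.vel Ex x v t := ⟨_, rfl⟩
    have h1 : mfderiv 𝓘(ℝ, ℝ) 𝓘(ℝ, E) (fun t : ℝ => q (Ex x (t • v))) t (1 : ℝ) =
        mfderiv 𝓘(ℝ, E') 𝓘(ℝ, E) q (Ex x (t • v)) w := by
      have h2 := mfderiv_comp t (g := q) (f := fun t : ℝ => Ex x (t • v))
        (H.smooth_q.mdifferentiableAt (by simp)) (hc.contMDiff.mdifferentiableAt (by simp))
      show mfderiv 𝓘(ℝ, ℝ) 𝓘(ℝ, E) (q ∘ fun t : ℝ => Ex x (t • v)) t (1 : ℝ) = _
      rw [h2]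
      have h3 : mfderiv 𝓘(ℝ, ℝ) 𝓘(ℝ, E') (fun t : ℝ => Ex x (t • v)) t (1 : ℝ) = w := by
        rw [mfderiv_eq_fderiv, hw]
        exact (hE.hasDerivAt x v t).deriv
      show mfderiv 𝓘(ℝ, E') 𝓘(ℝ, E) q (Ex x (t • v))
        (mfderiv 𝓘(ℝ, ℝ) 𝓘(ℝ, E') (fun t : ℝ => Ex x (t • v)) t (1 : ℝ)) = _
      rw [h3]
    rw [h1]
    show ENNReal.ofReal (√ (g.inner _ _ _)) ≤ _
    refine ENNReal.ofReal_le_ofReal ?_
    have h4 := hE.speed hm x v t
    rw [hv, ← hw] at h4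
    rw [← h4]
    refine Real.sqrt_le_sqrt ?_
    rw [ip_st g q s]
    have h5 : (0 : ℝ) ≤ inner ℝ (fderiv ℝ s (Ex x (t • v)) w) (fderiv ℝ s (Ex x (t • v)) w) :=
      real_inner_self_nonneg
    linarith
  refine (lintegral_mono fun t => hpt t).trans ?_
  rw [lintegral_const, Measure.restrict_apply MeasurableSet.univ, univ_inter, Real.volume_Icc]
  simp

end Pool.Agent.Lib.MP_df705a_gt.Pin
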