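import Pool.Agent.Lib.MP_df705a_gt.Mg.G022
import Pool.Agent.Lib.MP_df705a_gt.Pin.E7
import Pool.Agent.Lib.MP_df705a_gt.Mg.G021
import Pool.Agent.Lib.MP_df705a_gt.Mg.G024

/-!
# Very negative Ricci curvature of metrics of positive scalar curvature is essential
-/

open scoped Manifold ContDiff Topology
open Set Bundle Module Filter MeasureTheory

noncomputable section

namespace Pool.Agent.Lib.MP_df705a_gt.Pin

open Pool.Agent.Lib.MP_df705a_gt.Twist Pool.Agent.Lib.MP_df705a_gt.Perm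
open Pool.Agent.Lib.MP_df705a_gt.Coll (Met)

theorem lapC_dim_zero {E : Type*} [NormedAddCommGroup E] [NormedSpace ℝ E]
    [FiniteDimensional ℝ E] (hE : finrank ℝ E = 0) (h : Curv.Coeff E) (u : E → ℝ) (x : E) :
    lapC h u x = 0 := by
  have : IsEmpty (Fin (finrank ℝ E)) := by rw [hE]; infer_instance
  unfold lapC
  simp

theorem scal_dim_zero {E : Type*} [NormedAddCommGroup E] [NormedSpace ℝ E]
    [FiniteDimensional ℝ E] (hE : finrank ℝ E = 0) (h : Curv.Coeff E) (x : E) :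
    Curv.scal h x = 0 := by
  have : IsEmpty (Fin (finrank ℝ E)) := by rw [hE]; infer_instance
  unfold Curv.scal
  simp

section closed

variable {E' : Type*} [NormedAddCommGroup E'] [NormedSpace ℝ E'] [FiniteDimensional ℝ E']
  {E : Type*} [NormedAddCommGroup E] [NormedSpace ℝ E] [FiniteDimensional ℝ E]
  {F : Type*} [NormedAddCommGroup F] [InnerProductSpace ℝ F] [FiniteDimensional ℝ F]
  {M : Type*} [TopologicalSpace M] [ChartedSpace E M] [IsManifold 𝓘(ℝ, E) ∞ M]
  {q : E' → M} {s : E' → F}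

/-- The closure of the projection of the points near the bad set lies in `W`. -/
theorem closure_subset (g : Met E M) (H : StableCover E q s) (hP : Proper (st g q s)) {ρ : M → ℝ}
    (hρ0 : ∀ x, 0 < ρ x) (hρ1 : ∀ x y, |ρ (q x) - ρ (q y)| ≤ dh (st g q s) x y)
    {B W : Set M} (hW : ∀ b ∈ B, ∀ x, mdist g x b < ENNReal.ofReal (ρ x) → x ∈ W) {Y : Set E'}
    (hY : ∀ y ∈ Y, ∃ b ∈ q ⁻¹' B, dh (st g q s) y b < ρ (q y) / 2) :
    closure (q '' Y) ⊆ W := by
  have hm := isMetric_st g H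
  have hd := isD_dh hm hP
  intro z hz
  obtain ⟨z', rfl⟩ := q_surjective H z
  have hρz := hρ0 (q z')
  have hcont : Continuous fun y => dh (st g q s) z' y := hd.cont.comp (Continuous.prodMk_right z')
  have hU : IsOpen {y | dh (st g q s) z' y < ρ (q z') / 10} := isOpen_lt hcont continuous_const
  have hz'U : z' ∈ {y | dh (st g q s) z' y < ρ (q z') / 10} := by
    show dh (st g q s) z' z' < ρ (q z') / 10
    rw [hd.self]
    positivity
  obtain ⟨_, ⟨z'', hz'', rfl⟩, ⟨y, hy, hyz⟩⟩ := mem_closure_iff.1 hz _ (q_isOpenMap H _ hU)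
    ⟨z', hz'U, rfl⟩
  obtain ⟨b, hb, hyb⟩ := hY y hy
  have h1 : dh (st g q s) z' z'' < ρ (q z') / 10 := hz''
  have h2 := (abs_le.1 (hρ1 z' z'')).1
  refine hW (q b) hb (q z') ?_
  have h3 : mdist g (q z') (q b) ≤ ENNReal.ofReal (dh (st g q s) z' z'') +
      ENNReal.ofReal (dh (st g q s) y b) := by
    refine (mdist_triangle g (q z') (q z'') (q b)).trans (add_le_add (mdist_le_dh g H hP z' z'') ?_)
    rw [← hyz]
    exact mdist_le_dh g H hP y b
  refine h3.trans_lt ?_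
  rw [← ENNReal.ofReal_add (hd.nonneg _ _) (hd.nonneg _ _)]
  refine (ENNReal.ofReal_lt_ofReal_iff hρz).2 ?_
  rw [hyz] at hyb
  linarith

end closed

/-- **Very negative Ricci curvature of metrics of positive scalar curvature is essential.** -/
theorem essential.{v} (N : ℕ) : ∃ C : ℝ, 0 < C ∧ ∀ (n k : ℕ) (M : Type v)
    [TopologicalSpace M] [ChartedSpace (EuclideanSpace ℝ (Fin n)) M]
    [IsManifold 𝓘(ℝ, EuclideanSpace ℝ (Fin n)) ∞ M] [CompactSpace M]
    (q : EuclideanSpace ℝ (Fin N) → M) (s : EuclideanSpace ℝ (Fin N) → EuclideanSpace ℝ (Fin k)),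
    StableCover (EuclideanSpace ℝ (Fin n)) q s →
    ∀ (g : Met (EuclideanSpace ℝ (Fin n)) M) (ρ : M → ℝ),
      (∀ x, 0 < ρ x) → ContMDiff 𝓘(ℝ, EuclideanSpace ℝ (Fin n)) 𝓘(ℝ, ℝ) 1 ρ → GradLeOne g ρ →
      ∀ (γ : ℝ) (u : M → ℝ), 0 ≤ γ → Sm (EuclideanSpace ℝ (Fin n)) u → (∀ x, 0 < u x) →
      ∀ W : Set M, IsOpen W →
        (∀ b, ¬ MRicGe g (1 / ρ b ^ 2) b ∨
            Scal g b * u b - γ * Lap g u b ≤ C * (1 + γ) / ρ b ^ 2 * u b →
          ∀ x, mdist g x b < ENNReal.ofReal (ρ x) → x ∈ W) →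
        ∃ (x : M) (hx : x ∈ W),
          (FundamentalGroup.map (⟨Subtype.val, continuous_subtype_val⟩ :
            C(connectedComponentIn W x, M)) ⟨x, mem_connectedComponentIn hx⟩).range.FiniteIndex := by
  rcases Nat.eq_zero_or_pos N with rfl | hN
  · refine ⟨1, one_pos, ?_⟩
    intro n k M _ _ _ _ q s H g ρ hρ0 hρ hρ1 γ u hγ hu hu0 W hWo hW
    have hE : finrank ℝ (EuclideanSpace ℝ (Fin 0)) = 0 := by simp
    have hm := isMetric_st g H
    obtain ⟨K, G, G', hG⟩ := exists_coCpt g H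
    have hp := proper_of_coCpt hm hG
    have hx : q 0 ∈ W := by
      refine hW (q 0) (Or.inr ?_) (q 0) ?_
      · rw [← scal_st g H 0, ← lap_st g H hu 0, lapC_dim_zero hE, scal_dim_zero hE]
        have h1 := hu0 (q 0)
        have h2 := hρ0 (q 0)
        have h3 : 0 ≤ 1 * (1 + γ) / ρ (q 0) ^ 2 * u (q 0) := by positivity
        linarith
      · refine (mdist_le_dh g H hp 0 0).trans_lt ?_
        rw [(isD_dh hm hp).self]
        simpa using hρ0 (q 0)
    have : LocallyConnectedSpace M :=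
      ChartedSpace.locallyConnectedSpace (EuclideanSpace ℝ (Fin n)) M
    exact ⟨q 0, hx, finiteIndex_of_finite H hWo.connectedComponentIn _ (Set.toFinite _)⟩
  obtain ⟨C, hC, hw⟩ := E5_width N hN
  refine ⟨C, hC, ?_⟩
  intro n k M _ _ _ _ q s H g ρ hρ0 hρ hρ1 γ u hγ hu hu0 W hWo hW
  by_contra hno
  push Not at hno
  have : LocallyConnectedSpace M :=
    ChartedSpace.locallyConnectedSpace (EuclideanSpace ℝ (Fin n)) M
  have hinf : ∀ x ∈ W, {A : Set (EuclideanSpace ℝ (Fin N)) |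
      ∃ y ∈ q ⁻¹' connectedComponentIn W x,
        A = connectedComponentIn (q ⁻¹' connectedComponentIn W x) y}.Infinite := by
    intro x hx hfin
    exact hno x hx (finiteIndex_of_finite H hWo.connectedComponentIn _ hfin)
  have hh := isMetric_st g H
  obtain ⟨K, G, G', hG⟩ := exists_coCpt g H
  have hp := proper_of_coCpt hh hG
  set B : Set M := {b | ¬ MRicGe g (1 / ρ b ^ 2) b ∨
    Scal g b * u b - γ * Lap g u b ≤ C * (1 + γ) / ρ b ^ 2 * u b} with hB
  have hlip : ∀ x y, |ρ (q x) - ρ (q y)| ≤ dh (st g q s) x y := fun x y =>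
    dual hh (contDiff_comp_q H hρ) (fun x u => fderiv_comp_q_le g H hρ hρ1 x u) x y
  obtain ⟨J, hJ, V, Y, hVc, hVl, hYc, hcov, hm, hmY, hdiam, hYB⟩ :=
    hw (st g q s) hh hp (ρ ∘ q) (fun y => hρ0 (q y)) hlip (q ⁻¹' B)
    (fun y hy => by
      have h1 : MRicGe g (1 / ρ (q y) ^ 2) (q y) := by
        by_contra hcon
        exact hy (Or.inl hcon)
      exact ricGe_st g H (by have := hρ0 (q y); positivity) h1) γ (u ∘ q) hγ
    (contDiff_comp_q' H hu) (fun y => hu0 (q y)) (by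
      intro y hy
      have h1 : C * (1 + γ) / ρ (q y) ^ 2 * u (q y) < Scal g (q y) * u (q y) -
          γ * Lap g u (q y) := by
        by_contra hcon
        exact hy (Or.inr (not_lt.1 hcon))
      rw [lap_st g H hu y, scal_st g H y]
      show γ * Lap g u (q y) < (Scal g (q y) - C * (1 + γ) / ρ (q y) ^ 2) * u (q y)
      linarith)
  have hcl : closure (q '' Y) ⊆ W := closure_subset g H hp hρ0 hlip hW hYB
  have hYW : Y ⊆ q ⁻¹' W := fun y hy => hcl (subset_closure ⟨y, hy, rfl⟩)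
  have hq : Continuous q := H.smooth_q.continuous
  have hWq : IsOpen (q ⁻¹' W) := hWo.preimage hq
  obtain ⟨D, hD⟩ : ∃ D : ℝ, ∀ x, ρ x ≤ D := by
    obtain ⟨D, hD⟩ := isCompact_univ.bddAbove_image (f := ρ) hρ.continuous.continuousOn
    exact ⟨D, fun x => hD ⟨x, mem_univ x, rfl⟩⟩
  have hfr : finrank ℝ (EuclideanSpace ℝ (Fin N)) = N := by simp
  have : Nontrivial (EuclideanSpace ℝ (Fin N)) := by
    apply nontrivial_of_finrank_pos (R := ℝ)
    rw [hfr]; omega
  let I : Type := {A : Set (EuclideanSpace ℝ (Fin N)) // ∃ y ∈ q ⁻¹' W,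
    A = connectedComponentIn (q ⁻¹' W) y}
  refine no_mixed_cover (isD_dh hh hp) hG (J := J) (I := I) (V := V) (Y := Y)
    (W := fun i => i.1) hVl hVc hYc (fun x hx => (hcov x).resolve_left hx)
    (fun x => by rw [hfr]; exact hm x) (fun x hx => by rw [hfr]; exact hmY x hx) ?_ ?_ ?_ (D := D)
    (fun j x hx y hy => (hdiam j x hx y hy).trans (hD (q x))) ?_
  · rintro ⟨A, y, hy, rfl⟩
    exact hWq.connectedComponentIn
  · rintro ⟨A, y, hy, rfl⟩ ⟨A', y', hy', rfl⟩ hne
    rw [Set.disjoint_left]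
    intro z hz hz'
    refine hne (Subtype.ext ?_)
    show connectedComponentIn (q ⁻¹' W) y = connectedComponentIn (q ⁻¹' W) y'
    rw [connectedComponentIn_eq hz, connectedComponentIn_eq hz']
  · intro y hy
    exact mem_iUnion.2 ⟨⟨_, y, hYW hy, rfl⟩, mem_connectedComponentIn (hYW hy)⟩
  · rintro ⟨A, y, hy, rfl⟩ R
    obtain ⟨z, hz⟩ := sparse_components g H hWo isClosed_closure hcl hinf y hy R
    exact ⟨z, fun x hx => hz x ⟨subset_closure ⟨x, hx.1, rfl⟩, hx.2⟩⟩

end Pool.Agent.Lib.MP_df705a_gt.Pin
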