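import Pool.Agent.Lib.MP_df705a_gt.Pin.E6

/-!
# The conclusion in terms of the image of the fundamental group
-/

open scoped Manifold ContDiff Topology
open Set Bundle Module

noncomputable section

namespace Pool.Agent.Lib.MP_df705a_gt.Pin

open Pool.Agent.Lib.MP_df705a_gt.Twist Pool.Agent.Lib.MP_df705a_gt.Perm
open Pool.Agent.Lib.MP_df705a_gt.Coll (Met)

/-- The image of `π₁(V, x)` in `π₁(M, x)` for a subset `V` of `M` and a point `x` of `V`. -/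
def piImage {M : Type*} [TopologicalSpace M] (V : Set M) (x : V) :
    Subgroup (FundamentalGroup M (x : M)) :=
  (FundamentalGroup.map (⟨Subtype.val, continuous_subtype_val⟩ : C(V, M)) x).range

/-- The statement of `essential` with `piImage`. -/
theorem essential_pi.{v} (N : ℕ) : ∃ C : ℝ, 0 < C ∧ ∀ (n k : ℕ) (M : Type v)
    [TopologicalSpace M] [ChartedSpace (EuclideanSpace ℝ (Fin n)) M]
    [IsManifold 𝓘(ℝ, EuclideanSpace ℝ (Fin n)) ∞ M] [CompactSpace M]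
    (q : EuclideanSpace ℝ (Fin N) → M) (s : EuclideanSpace ℝ (Fin N) → EuclideanSpace ℝ (Fin k)),
    StableCover (EuclideanSpace ℝ (Fin n)) q s →
    ∀ (g : Met (EuclideanSpace ℝ (Fin n)) M) (ρ : M → ℝ),
      (∀ x, 0 < ρ x) → ContMDiff 𝓘(ℝ, EuclideanSpace ℝ (Fin n)) 𝓘(ℝ, ℝ) 1 ρ → GradLeOne g ρ →
      ∀ (γ : ℝ) (u : M → ℝ), 0 ≤ γ → Sm (EuclideanSpace ℝ (Fin n)) u → (∀ x, 0 < u x) →
      ∀ W : Set M, IsOpen W →
        (∀ b, ¬ MRicGe g (1 / ρ b ^ 2) b ∨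
            Scal g b * u b - γ * Lap g u b ≤ C * (1 + γ) / ρ b ^ 2 * u b →
          ∀ x, mdist g x b < ENNReal.ofReal (ρ x) → x ∈ W) →
        ∃ (x₀ : M) (x : connectedComponentIn W x₀),
          (piImage (connectedComponentIn W x₀) x).FiniteIndex := by
  obtain ⟨C, hC, h⟩ := essential.{v} N
  refine ⟨C, hC, ?_⟩
  intro n k M _ _ _ _ q s H g ρ hρ0 hρ hρ1 γ u hγ hu hu0 W hWo hW
  obtain ⟨x, hx, hfin⟩ := h n k M q s H g ρ hρ0 hρ hρ1 γ u hγ hu hu0 W hWo hW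
  exact ⟨x, ⟨x, mem_connectedComponentIn hx⟩, hfin⟩

end Pool.Agent.Lib.MP_df705a_gt.Pin
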