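import Pool.Agent.Lib.MP_df705a_gt.Pin.F9

/-!
# The bad points of a metric, and the theorem in a short form
-/

open scoped Manifold ContDiff Topology
open Set Bundle Module

noncomputable section

namespace Pool.Agent.Lib.MP_df705a_gt.Pin

open Pool.Agent.Lib.MP_df705a_gt.Twist Pool.Agent.Lib.MP_df705a_gt.Perm
open Pool.Agent.Lib.MP_df705a_gt.Coll (Met)

variable {E : Type*} [NormedAddCommGroup E] [NormedSpace ℝ E] [FiniteDimensional ℝ E]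
  {M : Type*} [TopologicalSpace M] [ChartedSpace E M] [IsManifold 𝓘(ℝ, E) ∞ M]

/-- The point `b` is bad: `Ric ≥ -ρ(b)⁻² g` fails at `b`, or
`scal(b) u(b) - γ Δu(b) ≤ C (1 + γ) ρ(b)⁻² u(b)`. -/
def Bad (g : Met E M) (C γ : ℝ) (ρ u : M → ℝ) (b : M) : Prop :=
  ¬ MRicGe g (1 / ρ b ^ 2) b ∨ Scal g b * u b - γ * Lap g u b ≤ C * (1 + γ) / ρ b ^ 2 * u b

/-- The open ball with centre `x` and radius `r` for the Riemannian distance of `g`. -/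
def mball (g : Met E M) (x : M) (r : ℝ) : Set M := {z | mdist g x z < ENNReal.ofReal r}

/-- `essential_ls` with `Bad` and `mball`. -/
theorem essential_bad.{v} (m : ℕ) : ∃ C : ℝ, 0 < C ∧ ∀ (M : Type v) [TopologicalSpace M]
    [ChartedSpace (EuclideanSpace ℝ (Fin (m + 1))) M]
    [IsManifold 𝓘(ℝ, EuclideanSpace ℝ (Fin (m + 1))) ∞ M] [CompactSpace M]
    (q : EuclideanSpace ℝ (Fin (m + 2)) → M) (s : EuclideanSpace ℝ (Fin (m + 2)) → ℝ),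
    StableCover (EuclideanSpace ℝ (Fin (m + 1))) q s →
    ∀ (g : Met (EuclideanSpace ℝ (Fin (m + 1))) M) (ρ : M → ℝ), (∀ x, 0 < ρ x) →
      ContMDiff 𝓘(ℝ, EuclideanSpace ℝ (Fin (m + 1))) 𝓘(ℝ, ℝ) 1 ρ → GradLeOne g ρ →
      ∀ (γ : ℝ) (u : M → ℝ), 0 ≤ γ →
        ContMDiff 𝓘(ℝ, EuclideanSpace ℝ (Fin (m + 1))) 𝓘(ℝ, ℝ) ∞ u → (∀ x, 0 < u x) →
      ∀ (A : Set M) (U : Fin m → Set M), IsOpen A → (∀ i, IsOpen (U i)) →
        (∀ x : A, ¬ (piImage A x).FiniteIndex) → (∀ i, ∀ x : U i, Finite (piImage (U i) x)) →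
        ∃ b x : M, Bad g C γ ρ u b ∧ b ∈ mball g x (ρ x) ∧ x ∉ A ∧
          ∀ i, ¬ mball g x (ρ x) ⊆ U i :=
  essential_ls m

end Pool.Agent.Lib.MP_df705a_gt.Pin
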