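import Pool.Agent.Lib.MP_df705a_gt.Mg.G001
import Pool.Agent.Lib.MP_df705a_gt.Mg.G025
import Pool.Agent.Lib.MP_df705a_gt.Mg.G026
import Pool.Agent.Lib.MP_df705a_gt.Mg.G027

/-!
# The bad set of a metric of positive scalar curvature is as large as the manifold
-/

open scoped Manifold ContDiff Topology
open Set Bundle Module Filter MeasureTheory

noncomputable section

namespace Pool.Agent.Lib.MP_df705a_gt.Pin

open Pool.Agent.Lib.MP_df705a_gt.Twist Pool.Agent.Lib.MP_df705a_gt.Perm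
open Pool.Agent.Lib.MP_df705a_gt.Coll (Met)

theorem piImage_mono {M : Type*} [TopologicalSpace M] {V A : Set M} (h : V ⊆ A) (x : V) :
    piImage V x ≤ piImage A ⟨x, h x.2⟩ := by
  rintro _ ⟨a, rfl⟩
  obtain ⟨γ, hγ⟩ := Quotient.exists_rep (FundamentalGroup.toPath a)
  have ha : a = FundamentalGroup.fromPath ⟦γ⟧ := by rw [hγ]
  refine ⟨FundamentalGroup.map (⟨Set.inclusion h, continuous_inclusion h⟩ : C(V, A)) x a, ?_⟩
  rw [ha]
  rfl

section closed

variable {E' : Type*} [NormedAddCommGroup E'] [NormedSpace ℝ E'] [FiniteDimensional ℝ E']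
  {E : Type*} [NormedAddCommGroup E] [NormedSpace ℝ E] [FiniteDimensional ℝ E]
  {F : Type*} [NormedAddCommGroup F] [InnerProductSpace ℝ F] [FiniteDimensional ℝ F]
  {M : Type*} [TopologicalSpace M] [ChartedSpace E M] [IsManifold 𝓘(ℝ, E) ∞ M]
  {q : E' → M} {s : E' → F}

/-- The capped distance to the complement of a preimage is constant on the fibres of `q`. -/
theorem capD_fibre (g : Met E M) (H : StableCover E q s) (ρ : M → ℝ) (U : Set M) {x z : E'}
    (hq : q x = q z) : capD (dh (st g q s)) (fun y => ρ (q y)) (q ⁻¹' U) z =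
      capD (dh (st g q s)) (fun y => ρ (q y)) (q ⁻¹' U) x := by
  obtain ⟨γ, h1, h2, h3⟩ := exists_deck g H x z hq.symm
  rw [← h3]
  refine capD_map γ.surjective h2 (fun w => by rw [h1]) (fun w => ?_) x
  show q (γ w) ∈ U ↔ q w ∈ U
  rw [h1]

end closed

/-- **The bad set of a metric of positive scalar curvature is as large as the manifold.** For
`U i = ∅` this is `essential_pi` (for `n ≥ 1`, `k = 1`). -/
theorem essential_ls.{v} (m : ℕ) : ∃ C : ℝ, 0 < C ∧ ∀ (M : Type v) [TopologicalSpace M]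
    [ChartedSpace (EuclideanSpace ℝ (Fin (m + 1))) M]
    [IsManifold 𝓘(ℝ, EuclideanSpace ℝ (Fin (m + 1))) ∞ M] [CompactSpace M]
    (q : EuclideanSpace ℝ (Fin (m + 2)) → M) (s : EuclideanSpace ℝ (Fin (m + 2)) → ℝ),
    StableCover (EuclideanSpace ℝ (Fin (m + 1))) q s →
    ∀ (g : Met (EuclideanSpace ℝ (Fin (m + 1))) M) (ρ : M → ℝ), (∀ x, 0 < ρ x) →
      ContMDiff 𝓘(ℝ, EuclideanSpace ℝ (Fin (m + 1))) 𝓘(ℝ, ℝ) 1 ρ → GradLeOne g ρ →
      ∀ (γ : ℝ) (u : M → ℝ), 0 ≤ γ → Sm (EuclideanSpace ℝ (Fin (m + 1))) u → (∀ x, 0 < u x) →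
      ∀ (A : Set M) (U : Fin m → Set M), IsOpen A → (∀ i, IsOpen (U i)) →
        (∀ x : A, ¬ (piImage A x).FiniteIndex) → (∀ i, ∀ x : U i, Finite (piImage (U i) x)) →
        ∃ b x : M, (¬ MRicGe g (1 / ρ b ^ 2) b ∨
            Scal g b * u b - γ * Lap g u b ≤ C * (1 + γ) / ρ b ^ 2 * u b) ∧
          mdist g x b < ENNReal.ofReal (ρ x) ∧ x ∉ A ∧
          ∀ i, ¬ {z | mdist g x z < ENNReal.ofReal (ρ x)} ⊆ U i := by
  obtain ⟨C₀, hC₀, hw⟩ := E5_width (m + 2) (by omega)
  set ε : ℝ := 1 / (64 * (m + 1) ^ 2) with hε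
  have hε0 : 0 < ε := by positivity
  have hε2 : ε ≤ 1 / 2 := by
    rw [hε, div_le_div_iff₀ (by positivity) (by positivity)]
    have : (1 : ℝ) ≤ (m + 1) ^ 2 := one_le_pow₀ (by linarith [Nat.cast_nonneg (α := ℝ) m])
    linarith
  have hε1 : ε ≤ 1 := by linarith
  refine ⟨C₀ / ε ^ 2, by positivity, ?_⟩
  intro M _ _ _ _ q s H g ρ hρ0 hρ hρ1 γ u hγ hu hu0 A U hA hU hAi hUf
  by_contra hno
  push Not at hno
  have : LocallyConnectedSpace M :=
    ChartedSpace.locallyConnectedSpace (EuclideanSpace ℝ (Fin (m + 1))) M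
  have hh := isMetric_st g H
  obtain ⟨K, G, G', hG⟩ := exists_coCpt g H
  have hp := proper_of_coCpt hh hG
  have hd := isD_dh hh hp
  set h := st g q s with hst
  set r : EuclideanSpace ℝ (Fin (m + 2)) → ℝ := fun y => ρ (q y) with hr
  set B : Set M := {b | ¬ MRicGe g (1 / ρ b ^ 2) b ∨
    Scal g b * u b - γ * Lap g u b ≤ C₀ / ε ^ 2 * (1 + γ) / ρ b ^ 2 * u b} with hB
  have hlip : ∀ x y, |r x - r y| ≤ dh h x y := fun x y =>
    dual hh (contDiff_comp_q H hρ) (fun x u => fderiv_comp_q_le g H hρ hρ1 x u) x y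
  have hr0 : ∀ x, 0 < r x := fun x => hρ0 (q x)
  obtain ⟨J, hJ, V, Y, hVc, hVl, hYc, hcov, hm, hmY, hdiam, hYB⟩ :=
    hw h hh hp (fun y => ε * r y) (fun y => mul_pos hε0 (hr0 y)) (fun x y => by
      rw [← mul_sub, abs_mul, abs_of_pos hε0]
      calc ε * |r x - r y| ≤ 1 * |r x - r y| := mul_le_mul_of_nonneg_right hε1 (abs_nonneg _)
        _ ≤ dh h x y := by rw [one_mul]; exact hlip x y) (q ⁻¹' B)
    (fun y hy => by
      have h1 : MRicGe g (1 / ρ (q y) ^ 2) (q y) := by
        by_contra hcon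
        exact hy (Or.inl hcon)
      have h3 := hr0 y
      refine (ricGe_st g H (by have := hρ0 (q y); positivity) h1).mono hh ?_
      show 1 / r y ^ 2 ≤ 1 / (ε * r y) ^ 2
      apply one_div_le_one_div_of_le (by positivity)
      exact pow_le_pow_left₀ (by positivity) (mul_le_of_le_one_left h3.le hε1) 2)
    γ (u ∘ q) hγ (contDiff_comp_q' H hu) (fun y => hu0 (q y)) (by
      intro y hy
      have h1 : C₀ / ε ^ 2 * (1 + γ) / ρ (q y) ^ 2 * u (q y) < Scal g (q y) * u (q y) -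
          γ * Lap g u (q y) := by
        by_contra hcon
        exact hy (Or.inr (not_lt.1 hcon))
      rw [lap_st g H hu y, scal_st g H y]
      have h2 : C₀ * (1 + γ) / (ε * r y) ^ 2 = C₀ / ε ^ 2 * (1 + γ) / ρ (q y) ^ 2 := by
        have h3 := hr0 y
        show C₀ * (1 + γ) / (ε * r y) ^ 2 = C₀ / ε ^ 2 * (1 + γ) / r y ^ 2
        field_simp
      rw [h2]
      show γ * Lap g u (q y) < (Scal g (q y) - C₀ / ε ^ 2 * (1 + γ) / ρ (q y) ^ 2) * u (q y)
      linarith)
  have hq : Continuous q := H.smooth_q.continuous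
  obtain ⟨D, hD⟩ : ∃ D : ℝ, ∀ x, ρ x ≤ D := by
    obtain ⟨D, hD⟩ := isCompact_univ.bddAbove_image (f := ρ) hρ.continuous.continuousOn
    exact ⟨D, fun x => hD ⟨x, mem_univ x, rfl⟩⟩
  obtain ⟨r₀, hr₀, hr₀r⟩ : ∃ r₀ : ℝ, 0 < r₀ ∧ ∀ x, r₀ ≤ ρ x := by
    have : Nonempty M := ⟨q 0⟩
    obtain ⟨x₀, hx₀⟩ := hρ.continuous.exists_forall_le' (q 0) (by
      rw [Filter.cocompact_eq_bot]
      exact Filter.eventually_bot)
    exact ⟨ρ x₀, hρ0 x₀, hx₀⟩
  -- the capped distances
  let f : Fin m → EuclideanSpace ℝ (Fin (m + 2)) → ℝ := fun i => capD (dh h) r (q ⁻¹' U i)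
  let fA : EuclideanSpace ℝ (Fin (m + 2)) → ℝ := capD (dh h) r (q ⁻¹' A)
  have hcont : ∀ {f : EuclideanSpace ℝ (Fin (m + 2)) → ℝ}, (∀ x y, |f x - f y| ≤ dh h x y) →
      Continuous f := fun {f} hf =>
    continuous_of_lip (a := 1) hd (fun x y => by rw [one_mul]; exact hf x y)
  have hfl : ∀ i x y, |f i x - f i y| ≤ dh h x y := fun i =>
    capD_lip hd (fun x => (hr0 x).le) hlip
  have hAl : ∀ x y, |fA x - fA y| ≤ dh h x y := capD_lip hd (fun x => (hr0 x).le) hlip
  have hbound : ∀ i, ∃ R : ℝ, ∀ x, r₀ / (16 * (m + 1)) ≤ f i x → ∀ x', r₀ / (16 * (m + 1)) ≤ f i x' →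
      x' ∈ connectedComponentIn (q ⁻¹' U i) x → ‖s x - s x'‖ ≤ 2 * D → dh h x x' ≤ R := by
    intro i
    obtain ⟨R, hR⟩ := bounded_thick g H (hU i) (fun x => Set.toFinite _)
      (T := {x | r₀ / (16 * (m + 1)) ≤ f i x}) (isClosed_le continuous_const (hcont (hfl i)))
      (fun x hx => mem_of_capD_pos hd (fun x => (hr0 x).le) (lt_of_lt_of_le (by positivity) hx))
      (fun x z hxz hx => by
        show r₀ / (16 * (m + 1)) ≤ f i z
        have h1 : f i z = f i x := capD_fibre g H ρ (U i) hxz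
        rw [h1]
        exact hx) (2 * D)
    exact ⟨R, fun x hx x' hx' => hR x hx x' hx'⟩
  choose R hR using hbound
  obtain ⟨J', hJ', V', R', hV'l, hV'c, hcov', hm', hmY', hR'⟩ :=
    exists_regrouped (d := dh h) hd (isPreconnected_ball hh hp) (f := f) (fA := fA) (r := r)
      (σ := s) (D := D) (r₀ := r₀) (R₀ := ∑ i, |R i|) hr₀ (fun x => hr₀r (q x)) (fun x => hD (q x))
      hlip (fun i x => capD_nonneg hd (fun x => (hr0 x).le) x)
      (fun i x => capD_le hd (fun x => (hr0 x).le) x) hfl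
      (fun x y => by
        rw [← Real.norm_eq_abs]
        exact norm_s_sub_le g H hp x y)
      (by
        intro i C hC hCf x hx y hy hxf hyf hσ
        refine (hR i x hxf y hyf ?_ (by rw [Real.norm_eq_abs]; exact hσ)).trans
          ((le_abs_self _).trans (Finset.single_le_sum (f := fun i => |R i|)
            (fun j _ => abs_nonneg _) (Finset.mem_univ i)))
        exact hC.subset_connectedComponentIn hx
          (fun z hz => mem_of_capD_pos hd (fun x => (hr0 x).le) (hCf z hz)) hy)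
      (Y := Y) hVc hVl hYc hcov (fun x => hm x) (fun x hx => hmY x hx)
      (fun j x hx y hy => (hdiam j x hx y hy).trans (by
        rw [hε]
        apply le_of_eq
        show 1 / (64 * ((m : ℝ) + 1) ^ 2) * r x = r x / (64 * (m + 1) ^ 2)
        ring))
      (by
        intro y hy
        obtain ⟨b, hb, hyb⟩ := hYB y hy
        have hry := hr0 y
        have hmd : ∀ x z, dh h x z < r x → mdist g (q x) (q z) < ENNReal.ofReal (ρ (q x)) := by
          intro x z hz
          exact (mdist_le_dh g H hp x z).trans_lt ((ENNReal.ofReal_lt_ofReal_iff (hr0 x)).2 hz)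
        rcases le_or_gt (r y / 4) (fA y) with hyA | hyA
        · exact Or.inl hyA
        · right
          obtain ⟨x, hxA, hxy⟩ := exists_of_capD_lt hyA (by linarith)
          have h2 := abs_le.1 (hlip y x)
          have h1 : dh h x b < r x := by
            have h3 : ε * r y ≤ 1 / 2 * r y := mul_le_mul_of_nonneg_right hε2 hry.le
            have h4 : dh h y b < ε * r y / 2 := hyb
            have h5 := hd.tri x y b
            rw [hd.comm x y] at h5
            linarith [h2.2]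
          obtain ⟨i, hi⟩ := hno (q b) (q x) hb (hmd x b h1) hxA
          have h6 : f i x = r x := capD_eq hd (fun x => (hr0 x).le) fun z hz => hi (hmd x z hz)
          refine ⟨i, ?_⟩
          have h7 := (abs_le.1 (hfl i y x)).1
          linarith [h2.2])
  -- the components of the preimage of `A`
  have hinf : ∀ x ∈ A, {C : Set (EuclideanSpace ℝ (Fin (m + 2))) |
      ∃ y ∈ q ⁻¹' connectedComponentIn A x,
        C = connectedComponentIn (q ⁻¹' connectedComponentIn A x) y}.Infinite := by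
    intro x hx hfin
    have h1 := finiteIndex_of_finite H hA.connectedComponentIn ⟨x, mem_connectedComponentIn hx⟩ hfin
    refine hAi ⟨x, hx⟩ ?_
    have h2 : (piImage (connectedComponentIn A x) ⟨x, mem_connectedComponentIn hx⟩).FiniteIndex :=
      h1
    exact Subgroup.finiteIndex_of_le (piImage_mono (connectedComponentIn_subset A x)
      ⟨x, mem_connectedComponentIn hx⟩)
  set T : Set (EuclideanSpace ℝ (Fin (m + 2))) := {x | r x / 4 ≤ fA x} with hT
  have hTc : IsClosed T := isClosed_le ((hcont hlip).div_const 4) (hcont hAl)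
  have hTq : ∀ x z, q x = q z → x ∈ T → z ∈ T := by
    intro x z hxz hx
    show r z / 4 ≤ fA z
    have h1 : fA z = fA x := capD_fibre g H ρ A hxz
    have h2 : r z = r x := by
      show ρ (q z) = ρ (q x)
      rw [hxz]
    rw [h1, h2]
    exact hx
  have hTA : T ⊆ q ⁻¹' A := fun x hx =>
    mem_of_capD_pos hd (fun x => (hr0 x).le) (lt_of_lt_of_le (by have := hr0 x; positivity) hx)
  have hZ : IsClosed (q '' T) := isClosed_image_fibre H hTc hTq
  have hZA : q '' T ⊆ A := by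
    rintro _ ⟨x, hx, rfl⟩
    exact hTA hx
  have hfr : finrank ℝ (EuclideanSpace ℝ (Fin (m + 2))) = m + 2 := by simp
  have : Nontrivial (EuclideanSpace ℝ (Fin (m + 2))) := by
    apply nontrivial_of_finrank_pos (R := ℝ)
    rw [hfr]; omega
  have hqA : IsOpen (q ⁻¹' A) := hA.preimage hq
  let I : Type := {C : Set (EuclideanSpace ℝ (Fin (m + 2))) // ∃ y ∈ q ⁻¹' A,
    C = connectedComponentIn (q ⁻¹' A) y}
  refine no_mixed_cover hd hG (J := J') (I := I) (V := V') (Y := {x ∈ Y | r x / 4 ≤ fA x})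
    (W := fun i => i.1) hV'l hV'c (hYc.inter hTc) hcov'
    (fun x => by rw [hfr]; exact hm' x) (fun x hx => by rw [hfr]; exact hmY' x hx) ?_ ?_ ?_
    (D := R') hR' ?_
  · rintro ⟨C, y, hy, rfl⟩
    exact hqA.connectedComponentIn
  · rintro ⟨C, y, hy, rfl⟩ ⟨C', y', hy', rfl⟩ hne
    rw [Set.disjoint_left]
    intro z hz hz'
    refine hne (Subtype.ext ?_)
    show connectedComponentIn (q ⁻¹' A) y = connectedComponentIn (q ⁻¹' A) y'
    rw [connectedComponentIn_eq hz, connectedComponentIn_eq hz']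
  · intro y hy
    exact mem_iUnion.2 ⟨⟨_, y, hTA hy.2, rfl⟩, mem_connectedComponentIn (hTA hy.2)⟩
  · rintro ⟨C, y, hy, rfl⟩ R
    obtain ⟨z, hz⟩ := sparse_components g H hA hZ hZA hinf y hy R
    exact ⟨z, fun x hx => hz x ⟨⟨x, hx.1.2, rfl⟩, hx.2⟩⟩

end Pool.Agent.Lib.MP_df705a_gt.Pin
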