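import Pool.Agent.Lib.MP_df705a_gt.Mg.G001

/-!
# TASK W2: counting points of a net
-/

open scoped Topology
open Set MeasureTheory

noncomputable section

namespace Pool.Agent.Lib.MP_df705a_gt.Pin

variable {X : Type*} [TopologicalSpace X] [MeasurableSpace X] [BorelSpace X] {d : X → X → ℝ}
  {σ : X → ℝ}

/-- Doubling bounds the number of points `l` of a net with `d x l ≤ 8 σ l`. Proof: for such `l` one
has `σ l ≤ σ x + d l x / 100 ≤ σ x + 0.08 σ l`, so `σ l ≤ 1.09 σ x`, and `σ x ≤ σ l + 0.08 σ l`, so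
`σ l ≥ 0.92 σ x`; hence `bd d l (σ l / 16) ⊆ bd d x (9 σ x) ⊆ bd d l (20 σ l)` and
`μ (bd d x (9 σ x)) ≤ N μ (bd d l (σ l / 16))`. The balls `bd d l (σ l / 16)` are disjoint
(`Net.disjoint`), measurable, and contained in `bd d x (9 σ x)`, whose measure is positive and
finite. So every finite subset `S` of the set has `S.card • μ (bd d x (9 σ x)) ≤ N μ (bd ...)`, i.e.
`S.card ≤ N`. (A set all of whose finite subsets have at most `N` elements is finite.) -/
theorem Net.count (hd : IsD d) (hσ : Scale d σ) {Z : Set X} (hZ : Net d σ Z) {μ : Measure X}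
    (hfin : ∀ x r, μ (bd d x r) < ⊤) (hpos : ∀ x r, 0 < r → 0 < μ (bd d x r)) {N : ℝ}
    (hN : 0 ≤ N)
    (hD : ∀ x, μ (bd d x (20 * σ x)) ≤ ENNReal.ofReal N * μ (bd d x (σ x / 16))) (x : X) :
    {l ∈ Z | d x l ≤ 8 * σ l}.Finite ∧ ({l ∈ Z | d x l ≤ 8 * σ l}.ncard : ℝ) ≤ N := by
  have key : ∀ T : Finset X, (T : Set X) ⊆ {l ∈ Z | d x l ≤ 8 * σ l} → (T.card : ℝ) ≤ N := by
    intro T hT
    have hest : ∀ l ∈ T, bd d l (σ l / 16) ⊆ bd d x (9 * σ x) ∧
        μ (bd d x (9 * σ x)) ≤ ENNReal.ofReal N * μ (bd d l (σ l / 16)) := by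
      intro l hl
      have h1 : d x l ≤ 8 * σ l := (hT hl).2
      have h2 := hσ.lip l x
      have h3 := hσ.lip x l
      have h4 := hσ.pos l
      have h5 := hσ.pos x
      rw [hd.comm l x] at h2
      refine ⟨hd.bd_subset (by linarith), ?_⟩
      refine le_trans (measure_mono (hd.bd_subset (x := l) (y := x) (R := 20 * σ l) ?_)) (hD l)
      rw [hd.comm l x]
      linarith
    have hdis : (T : Set X).PairwiseDisjoint fun p => bd d p (σ p / 16) :=
      (hZ.disjoint hd hσ).subset fun l hl => (hT hl).1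
    have hM0 := hpos x (9 * σ x) (by have := hσ.pos x; linarith)
    have hM1 := hfin x (9 * σ x)
    have hsum : (T.card : ENNReal) * μ (bd d x (9 * σ x)) ≤ ENNReal.ofReal N * μ (bd d x (9 * σ x)) := by
      calc (T.card : ENNReal) * μ (bd d x (9 * σ x)) = ∑ l ∈ T, μ (bd d x (9 * σ x)) := by
            rw [Finset.sum_const, nsmul_eq_mul]
        _ ≤ ∑ l ∈ T, ENNReal.ofReal N * μ (bd d l (σ l / 16)) :=
            Finset.sum_le_sum fun l hl => (hest l hl).2
        _ = ENNReal.ofReal N * ∑ l ∈ T, μ (bd d l (σ l / 16)) := by rw [Finset.mul_sum]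
        _ = ENNReal.ofReal N * μ (⋃ l ∈ T, bd d l (σ l / 16)) := by
            rw [measure_biUnion_finset hdis fun l _ => hd.measurableSet_bd l _]
        _ ≤ ENNReal.ofReal N * μ (bd d x (9 * σ x)) := by
            gcongr
            exact iUnion₂_subset fun l hl => (hest l hl).1
    have h6 : (T.card : ENNReal) ≤ ENNReal.ofReal N := by
      have h7 := ENNReal.mul_le_mul_iff_left hM0.ne' hM1.ne (a := (T.card : ENNReal)) (b := ENNReal.ofReal N)
      exact h7.mp hsum
    have h8 : ENNReal.ofReal (T.card : ℝ) ≤ ENNReal.ofReal N := by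
      rw [ENNReal.ofReal_natCast]; exact h6
    exact (ENNReal.ofReal_le_ofReal_iff hN).mp h8
  have hfinite : {l ∈ Z | d x l ≤ 8 * σ l}.Finite := by
    by_contra hinf
    obtain ⟨T, hT, hcard⟩ := Set.Infinite.exists_subset_card_eq hinf (⌊N⌋₊ + 1)
    have h1 := key T hT
    rw [hcard] at h1
    have h2 := Nat.lt_floor_add_one N
    push_cast at h1
    linarith
  refine ⟨hfinite, ?_⟩
  rw [Set.ncard_eq_toFinset_card _ hfinite]
  exact key _ (by simp)

end Pool.Agent.Lib.MP_df705a_gt.Pin
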